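import Pool.Agent.Q145.HC.Stm
import Pool.Agent.H373R2.T7.SupLiou

/-!
Lemma job HC-PNL (project HC of helper145): the prime number theorem for the Liouville function in
segments.
-/

set_option autoImplicit false

namespace Pool.Agent.Q130.HC

open Finset Filter Complex
open Pool.Agent.H807R2.Dav (ee ee_zero)
open Pool.Agent.Q145.HC

theorem lm_cast (n : ℕ) : ((lm n : ℝ) : ℂ) = Pool.Agent.H373R2.T7.liR n := by
  unfold lm Pool.Agent.H373R2.T7.liR
  push_cast
  rfl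

theorem seg (n X : ℕ) : ((∑ t ∈ Icc 1 X, lm (n + t) : ℝ) : ℂ) =
    ∑ k ∈ Icc 1 (n + X), Pool.Agent.H373R2.T7.liR k * ee ((k : ℝ) * 0) -
      ∑ k ∈ Icc 1 n, Pool.Agent.H373R2.T7.liR k * ee ((k : ℝ) * 0) := by
  have h0 : ∀ N : ℕ, ∑ k ∈ Icc 1 N, Pool.Agent.H373R2.T7.liR k * ee ((k : ℝ) * 0) =
      ∑ k ∈ Icc 1 N, ((lm k : ℝ) : ℂ) := by
    intro N
    refine sum_congr rfl fun k _ => ?_
    rw [mul_zero, ee_zero, mul_one, lm_cast]
  rw [h0, h0, eq_sub_iff_add_eq]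
  have h1 : Icc 1 (n + X) = Icc 1 n ∪ (Icc 1 X).map (addLeftEmbedding n) := by
    ext k
    simp only [Finset.mem_Icc, Finset.mem_union, Finset.mem_map, addLeftEmbedding_apply]
    constructor
    · rintro ⟨a, b⟩
      by_cases hk : k ≤ n
      · left; exact ⟨a, hk⟩
      · right; exact ⟨k - n, ⟨by omega, by omega⟩, by omega⟩
    · rintro (⟨a, b⟩ | ⟨t, ⟨a, b⟩, rfl⟩)
      · exact ⟨a, by omega⟩
      · exact ⟨by omega, by omega⟩
  have hd : Disjoint (Icc 1 n) ((Icc 1 X).map (addLeftEmbedding n)) := by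
    rw [disjoint_left]
    intro k hk hk'
    simp only [Finset.mem_Icc, Finset.mem_map, addLeftEmbedding_apply] at hk hk'
    obtain ⟨t, ⟨a, b⟩, rfl⟩ := hk'
    omega
  rw [h1, sum_union hd, sum_map, add_comm]
  push_cast
  simp only [addLeftEmbedding_apply]

theorem t_PNL' : S_PNL := by
  intro A
  obtain ⟨N0, h⟩ := Pool.Agent.H373R2.T7.sup_liou (A + 1)
  refine ⟨max N0 (Nat.ceil (Real.exp 5)), fun X hX n hn => ?_⟩
  have hX0 : N0 ≤ X := le_trans (le_max_left _ _) hX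
  have hX1 : Real.exp 5 ≤ X :=
    (Nat.le_ceil _).trans (by exact_mod_cast le_trans (le_max_right _ _) hX)
  have hXp : (0 : ℝ) < X := lt_of_lt_of_le (Real.exp_pos _) hX1
  have hL : 5 ≤ Real.log X := by
    rw [Real.le_log_iff_exp_le hXp]
    exact hX1
  rw [mem_Ioc] at hn
  set L := Real.log X with hLdef
  have hLp : 0 < L := by linarith
  have key : ∀ N : ℕ, X ≤ N → N ≤ 3 * X →
      ‖∑ k ∈ Icc 1 N, Pool.Agent.H373R2.T7.liR k * ee ((k : ℝ) * 0)‖ ≤ (N : ℝ) / L ^ (A + 1) := by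
    intro N hN hN3
    refine (h N (hX0.trans hN) 0).trans ?_
    have hNr : (X : ℝ) ≤ N := by exact_mod_cast hN
    have hlog : L ≤ Real.log N := Real.log_le_log hXp hNr
    exact div_le_div_of_nonneg_left (by positivity) (by positivity)
      (pow_le_pow_left₀ hLp.le hlog _)
  have h1 := key (n + X) (by omega) (by omega)
  have h2 := key n hn.1.le (by omega)
  have h3 : |∑ t ∈ Icc 1 X, lm (n + t)| = ‖((∑ t ∈ Icc 1 X, lm (n + t) : ℝ) : ℂ)‖ := by
    rw [Complex.norm_real, Real.norm_eq_abs]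
  rw [h3, seg]
  refine (norm_sub_le _ _).trans ((add_le_add h1 h2).trans ?_)
  rw [← add_div, div_le_div_iff₀ (by positivity) (by positivity), pow_succ]
  have h4 : ((n + X : ℕ) : ℝ) + (n : ℝ) ≤ 5 * X := by
    have : n + X + n ≤ 5 * X := by omega
    exact_mod_cast this
  calc (((n + X : ℕ) : ℝ) + (n : ℝ)) * L ^ A ≤ 5 * X * L ^ A :=
        mul_le_mul_of_nonneg_right h4 (by positivity)
    _ ≤ X * (L ^ A * L) := by
        have : (X : ℝ) * L ^ A * 5 ≤ X * L ^ A * L := mul_le_mul_of_nonneg_left hL (by positivity)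
        linarith

end Pool.Agent.Q130.HC

namespace Pool.Agent.Q145.HC

theorem t_PNL : S_PNL := Pool.Agent.Q130.HC.t_PNL'

end Pool.Agent.Q145.HC
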